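import Pool.Agent.Helper49.KR.St

namespace Pool.Agent.Helper79.KR

open Pool.Agent.Helper49.KX Pool.Agent.Helper49.KR

theorem hPTA : StPta := by
  intro hP E _ _ _ _ _ F hF s0 u0 u1 h0 h1
  obtain ⟨P, hPe⟩ := hF.pol s0 u0 u1
  have e0 : P.eval 0 ≠ 0 := by
    rw [← hPe 0]; simpa using h0
  have e1 : P.eval 1 ≠ 0 := by
    rw [← hPe 1]; simpa using h1
  obtain ⟨γ, hγc, hγ0, hγ1, hγ⟩ := hP P e0 e1
  set w : ℝ → E := fun t => u0 + γ t • (u1 - u0) with hw
  have hwc : Continuous w := by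
    apply Continuous.add continuous_const
    exact hγc.smul continuous_const
  have hw0 : ∀ t, t ≤ 0 → w t = u0 := by
    intro t ht
    simp [hw, hγ0 t ht]
  have hw1 : ∀ t, 1 ≤ t → w t = u1 := by
    intro t ht
    simp [hw, hγ1 t ht]
  have hFw : ∀ t, F s0 (w t) ≠ 0 := by
    intro t
    have := hPe (γ t)
    simp only [hw]
    rw [this]
    exact hγ t
  have hcont : Continuous fun q : ℝ × ℝ => F q.1 (w q.2) := by
    have h2 : Continuous fun q : ℝ × ℝ => ((q.1, w q.2) : ℝ × E) :=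
      continuous_fst.prodMk (hwc.comp continuous_snd)
    exact hF.cont.comp h2
  have hopen : IsOpen {q : ℝ × ℝ | F q.1 (w q.2) ≠ 0} := by
    have : {q : ℝ × ℝ | F q.1 (w q.2) ≠ 0} = (fun q : ℝ × ℝ => F q.1 (w q.2)) ⁻¹' {0}ᶜ := by
      ext q; simp
    rw [this]
    exact isOpen_compl_singleton.preimage hcont
  obtain ⟨U, V, hU, _, hsU, htV, hUV⟩ := generalized_tube_lemma (s := ({s0} : Set ℝ)) isCompact_singleton
    (t := Set.Icc (0 : ℝ) 1) isCompact_Icc hopen (by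
      rintro ⟨a, b⟩ ⟨ha, _⟩
      simp only [Set.mem_singleton_iff] at ha
      subst ha
      exact hFw b)
  obtain ⟨δ, hδ, hball⟩ := Metric.isOpen_iff.mp hU s0 (hsU rfl)
  have hall : ∀ s, |s - s0| < δ → ∀ t, F s (w t) ≠ 0 := by
    intro s hs t
    have hsU' : s ∈ U := hball (by rw [Metric.mem_ball, Real.dist_eq]; exact hs)
    have key : ∀ t ∈ Set.Icc (0 : ℝ) 1, F s (w t) ≠ 0 := by
      intro t ht
      have : (s, t) ∈ U ×ˢ V := ⟨hsU', htV ht⟩
      exact hUV this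
    rcases le_total t 0 with ht | ht
    · rw [hw0 t ht, ← hw0 0 le_rfl]
      exact key 0 ⟨le_rfl, zero_le_one⟩
    · rcases le_total t 1 with ht1 | ht1
      · exact key t ⟨ht, ht1⟩
      · rw [hw1 t ht1, ← hw1 1 le_rfl]
        exact key 1 ⟨zero_le_one, le_rfl⟩
  refine ⟨δ / 2, by positivity, ?_⟩
  intro ε hε hεδ
  refine ⟨fun s => w ((s - s0) / ε + 1 / 2), ?_, ?_, ?_, ?_⟩
  · apply hwc.comp
    fun_prop
  · intro s hs
    exact hall s (by linarith) _
  · intro s hs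
    apply hw0
    have : (s - s0) / ε ≤ -(1 / 2) := by
      rw [div_le_iff₀ hε]; linarith
    linarith
  · intro s hs
    apply hw1
    have : 1 / 2 ≤ (s - s0) / ε := by
      rw [le_div_iff₀ hε]; linarith
    linarith

end Pool.Agent.Helper79.KR
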